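import Pool.Agent.R982.HC.Robust
import Pool.Agent.R982.HC.Hyp
import Pool.Agent.R982.HC.Final

/-!
# MP_39270e_co: `f_r(k)` is not `O(r^2 / log k)`

For every `K` there are `R0` and `a > 0` with `f_r(k) ≥ K r^2 / log k` whenever `r ≥ R0`, `k ≥ r` and
`log k ≤ a r`. So for every choice `k = κ(r)` with `κ(r) ≥ r` and `log κ(r) = o(r)` the ratio
`f_r(κ(r)) / (r^2 / log κ(r))` tends to infinity.
-/

open Filter Topology
open scoped ENNReal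

namespace Pool.Agent.Results.MP_39270e_co.NotBigO

open Pool.Agent.R982.HC

theorem part1 : ∀ K : ℝ, ∃ (R0 : ℕ) (a : ℝ), 0 < a ∧ ∀ r k : ℕ, R0 ≤ r → r ≤ k →
    Real.log k ≤ a * r →
    ENNReal.ofReal (K * (r : ℝ) ^ 2 / Real.log k) ≤ ((f r k : ℕ∞) : ℝ≥0∞) :=
  Pool.Agent.R982.HC.Final.final_of Pool.Agent.R982.HC.Hyp.hyp_ok
    Pool.Agent.R982.HC.Main.robust_ok

theorem part2 (κ : ℕ → ℕ) (h1 : ∀ᶠ r : ℕ in atTop, r ≤ κ r)
    (h2 : Tendsto (fun r : ℕ => Real.log (κ r) / (r : ℝ)) atTop (𝓝 0)) :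
    Tendsto (fun r : ℕ => ((f r (κ r) : ℕ∞) : ℝ≥0∞) *
      ENNReal.ofReal (Real.log (κ r) / (r : ℝ) ^ 2)) atTop (𝓝 ∞) := by
  rw [ENNReal.tendsto_nhds_top_iff_nnreal]
  intro K
  obtain ⟨R0, a, ha, h⟩ := part1 ((K : ℝ) + 1)
  have h3 : ∀ᶠ r : ℕ in atTop, Real.log (κ r) / (r : ℝ) < a := h2.eventually_lt_const ha
  filter_upwards [h1, h3, eventually_ge_atTop R0, eventually_ge_atTop 2] with r e1 e2 e3 e4
  have hr : (0 : ℝ) < r := by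
    have : (2 : ℝ) ≤ r := by exact_mod_cast e4
    linarith
  have hk : (2 : ℝ) ≤ (κ r : ℝ) := by exact_mod_cast (le_trans e4 e1)
  have hlog : 0 < Real.log (κ r) := Real.log_pos (by linarith)
  have h4 := h r (κ r) e3 e1 (by rw [div_lt_iff₀ hr] at e2; exact e2.le)
  have h5 : ENNReal.ofReal (((K : ℝ) + 1) * (r : ℝ) ^ 2 / Real.log (κ r)) *
      ENNReal.ofReal (Real.log (κ r) / (r : ℝ) ^ 2) = ENNReal.ofReal ((K : ℝ) + 1) := by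
    rw [← ENNReal.ofReal_mul (by positivity)]
    congr 1
    field_simp
  calc (K : ℝ≥0∞) = ENNReal.ofReal (K : ℝ) := (ENNReal.ofReal_coe_nnreal).symm
    _ < ENNReal.ofReal ((K : ℝ) + 1) := by
        rw [ENNReal.ofReal_lt_ofReal_iff (by positivity)]
        linarith
    _ = ENNReal.ofReal (((K : ℝ) + 1) * (r : ℝ) ^ 2 / Real.log (κ r)) *
      ENNReal.ofReal (Real.log (κ r) / (r : ℝ) ^ 2) := h5.symm
    _ ≤ _ := by gcongr

/-- `f_r(k)` is not `O(r^2 / log k)`: (1) for every `K`, `f_r(k) ≥ K r^2 / log k` for all large `r` and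
all `k` with `k ≥ r` and `log k ≤ a r` (`a > 0` depends on `K`); (2) for every `κ` with
`r ≤ κ(r)` eventually and `log κ(r) = o(r)`, `f_r(κ(r)) log κ(r) / r^2 → ∞`. -/
theorem result :
    (∀ K : ℝ, ∃ (R0 : ℕ) (a : ℝ), 0 < a ∧ ∀ r k : ℕ, R0 ≤ r → r ≤ k → Real.log k ≤ a * r →
      ENNReal.ofReal (K * (r : ℝ) ^ 2 / Real.log k) ≤ ((f r k : ℕ∞) : ℝ≥0∞)) ∧
    (∀ κ : ℕ → ℕ, (∀ᶠ r : ℕ in atTop, r ≤ κ r) →
      Tendsto (fun r : ℕ => Real.log (κ r) / (r : ℝ)) atTop (𝓝 0) →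
      Tendsto (fun r : ℕ => ((f r (κ r) : ℕ∞) : ℝ≥0∞) *
        ENNReal.ofReal (Real.log (κ r) / (r : ℝ) ^ 2)) atTop (𝓝 ∞)) :=
  ⟨part1, part2⟩

end Pool.Agent.Results.MP_39270e_co.NotBigO
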